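import Pool.Agent.THS.StmtsL

set_option autoImplicit false

/-! Row MXV of squad THS: integral decomposition of a rank one matrix. -/

namespace Pool.Agent.THS.H26

open scoped BigOperators

theorem mxv : MxvStatement := by
  intro K _ v ρ P hρ0 hρ1 hv hP hR
  by_cases h0 : ∀ i j, P i j = 0
  · refine ⟨fun _ _ => 0, fun _ _ => 0, by simp, by simp, ?_⟩
    intro i j
    simp [h0 i j]
  push Not at h0
  obtain ⟨i0, j0, h00⟩ := h0
  let S : Set ℝ := Set.range (fun x : ℤ × ℤ => v (P x.1 x.2))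
  have hbdd : BddAbove S := ⟨1, by rintro _ ⟨x, rfl⟩; exact hP _ _⟩
  have hne : S.Nonempty := ⟨_, ⟨(i0, j0), rfl⟩⟩
  have hle : ∀ i j, v (P i j) ≤ sSup S := fun i j => le_csSup hbdd ⟨(i, j), rfl⟩
  have hpos : 0 < sSup S := lt_of_lt_of_le (v.pos h00) (hle i0 j0)
  have hlt : ρ * sSup S < sSup S := by nlinarith
  obtain ⟨_, ⟨⟨k0, l0⟩, rfl⟩, hk⟩ := exists_lt_of_lt_csSup hne hlt
  simp only at hk
  have hk0 : 0 < v (P k0 l0) := lt_trans (by positivity) hk
  have hP0 : P k0 l0 ≠ 0 := fun h => by simp [h] at hk0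
  have hmax : ∀ i j, v (P i j) ≤ v (P k0 l0) := by
    intro i j
    by_contra hc
    push Not at hc
    have hij : 0 < v (P i j) := lt_trans hk0 hc
    have h1 : v (P k0 l0 / P i j) < 1 := by
      rw [map_div₀, div_lt_one hij]; exact hc
    have h2 := hv _ h1
    rw [map_div₀, div_le_iff₀ hij] at h2
    have h3 : ρ * v (P i j) ≤ ρ * sSup S := mul_le_mul_of_nonneg_left (hle i j) hρ0.le
    linarith
  refine ⟨fun _ i => P i l0 / P k0 l0, fun _ j => P k0 j, ?_, ?_, ?_⟩
  · intro _ i
    rw [map_div₀, div_le_one hk0]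
    exact hmax i l0
  · intro _ j
    exact hP _ _
  · intro i j
    have h := hR i j k0 l0
    have h' : P i l0 / P k0 l0 * P k0 j = P i j := by
      field_simp
      linear_combination -h
    simp [h']

end Pool.Agent.THS.H26
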